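import Pool.Agent.H242R3.ES.StmtsN
import Pool.Agent.H138R3.ES.Glue

set_option autoImplicit false
set_option maxHeartbeats 4000000

/-! Task ES-N16 of the project H242-ES (helper722). -/

namespace Pool.Agent.H722R5.ES.N16

open Finset Pool.Agent.H242R3.ES
open Pool.Agent.H138R3.ES.Glue (Bl Bl_apply B_symm B_nondeg exists_map)

section form

variable {D : ℕ}

theorem B_add_left (x y z : LV D) : B (x + y) z = B x z + B y z := by
  rw [← Bl_apply, ← Bl_apply, ← Bl_apply, map_add]; rfl

theorem B_add_right (x y z : LV D) : B x (y + z) = B x y + B x z := by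
  rw [← Bl_apply, ← Bl_apply, ← Bl_apply, map_add]

theorem B_sub_left (x y z : LV D) : B (x - y) z = B x z - B y z := by
  rw [← Bl_apply, ← Bl_apply, ← Bl_apply, map_sub]; rfl

theorem B_smul_right (c : ℝ) (x y : LV D) : B x (c • y) = c * B x y := by
  rw [← Bl_apply, ← Bl_apply, map_smul]; rfl

theorem null_prop (x y : LV D) (hx : B x x = 0) (hy : B y y = 0) (hxy : B x y = 0) :
    x none • y = y none • x := by
  have h : ∑ i : Fin D, (x none * y (some i) - y none * x (some i)) ^ 2 = 0 := by
    have h1 : ∑ i : Fin D, (x none * y (some i) - y none * x (some i)) ^ 2 =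
        x none ^ 2 * (∑ i : Fin D, y (some i) * y (some i)) -
          2 * x none * y none * (∑ i : Fin D, x (some i) * y (some i)) +
          y none ^ 2 * (∑ i : Fin D, x (some i) * x (some i)) := by
      rw [Finset.mul_sum, Finset.mul_sum, Finset.mul_sum, ← Finset.sum_sub_distrib,
        ← Finset.sum_add_distrib]
      refine Finset.sum_congr rfl fun i _ => ?_
      ring
    unfold B at hx hy hxy
    have e1 : ∑ i : Fin D, x (some i) * x (some i) = x none * x none := by linarith
    have e2 : ∑ i : Fin D, y (some i) * y (some i) = y none * y none := by linarith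
    have e3 : ∑ i : Fin D, x (some i) * y (some i) = x none * y none := by linarith
    rw [h1, e1, e2, e3]
    ring
  rw [Finset.sum_eq_zero_iff_of_nonneg (fun i _ => sq_nonneg _)] at h
  funext k
  cases k with
  | none => simp [mul_comm]
  | some i =>
    have h2 := h i (Finset.mem_univ i)
    have h3 := (pow_eq_zero_iff two_ne_zero).1 h2
    simp only [Pi.smul_apply, smul_eq_mul]
    linarith

theorem null_none (x : LV D) (hx : B x x = 0) (hx0 : x none = 0) : x = 0 := by
  unfold B at hx
  rw [hx0, mul_zero, sub_zero] at hx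
  rw [Finset.sum_eq_zero_iff_of_nonneg (fun i _ => mul_self_nonneg _)] at hx
  funext k
  cases k with
  | none => exact hx0
  | some i => exact mul_self_eq_zero.1 (hx i (Finset.mem_univ i))

end form

section

variable {D : ℕ} {ι : Type} [Fintype ι] {V V' : ι → LV D}

theorem face_univ (V : ι → LV D) : Face V Set.univ :=
  ⟨0, fun i => by simp, fun i => by simp⟩

theorem card_ge (h : GQ D V) : D + 1 ≤ Fintype.card ι := by
  have h1 := finrank_range_le_card (R := ℝ) V
  rw [Set.finrank, h.span, finrank_top] at h1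
  simpa using h1

theorem ne_univ2 (hD : 4 ≤ D) (h : GQ D V) (v u : ι) : ({v, u} : Set ι) ≠ Set.univ := by
  intro h1
  have h2 := congrArg Set.ncard h1
  rw [Set.ncard_univ, Nat.card_eq_fintype_card] at h2
  have h3 : ({v, u} : Set ι).ncard ≤ 2 := by
    refine (Set.ncard_insert_le _ _).trans ?_
    rw [Set.ncard_singleton]
  have := card_ge h
  omega

/-- the neighbours and `v` span -/
theorem span_nb (GV : GenV) (h : GQ D V) (v : ι) :
    Submodule.span ℝ (Set.range (fun k : {k : ι // k = v ∨ (k ≠ v ∧ Face V {v, k})} => V k)) =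
      ⊤ := by
  rw [eq_top_iff, ← h.span, Submodule.span_le]
  rintro _ ⟨i, rfl⟩
  obtain ⟨y, a, h2, h3, h4⟩ := GV ι (LV D) V h.vert v Set.univ (face_univ V) (Set.mem_univ v) i
    (Set.mem_univ i)
  rw [SetLike.mem_coe, h4]
  apply Submodule.add_mem
  · apply Submodule.smul_mem
    apply Submodule.subset_span
    exact ⟨⟨v, Or.inl rfl⟩, rfl⟩
  · apply Submodule.sum_mem
    intro k _
    by_cases hk : a k = 0
    · rw [hk, zero_smul]; exact Submodule.zero_mem _
    · apply Submodule.smul_mem
      apply Submodule.subset_span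
      exact ⟨⟨k, Or.inr (h3 k hk).2⟩, rfl⟩

/-- the local isometry is correct on all proper faces at `v` -/
theorem onface (G2 : TaskG2) (GV : GenV) (P7 : P7G) (FG : FacGram D) (h : GQ D V) (h' : GQ D V')
    (hF : ∀ S, Face V S ↔ Face V' S) (v : ι) (T : LV D →ₗ[ℝ] LV D)
    (hTB : ∀ x y, B (T x) (T y) = B x y)
    (hT : ∀ k, (k = v ∨ (k ≠ v ∧ Face V {v, k})) → T (V k) = V' k)
    (S : Set ι) (hS : Face V S) (hSu : S ≠ Set.univ) (hv : v ∈ S) :
    ∀ k ∈ S, T (V k) = V' k := by
  intro k hk
  by_cases hkv : k = v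
  · exact hT k (Or.inl hkv)
  by_cases hnb : Face V {v, k}
  · exact hT k (Or.inr ⟨hkv, hnb⟩)
  obtain ⟨y, a, h1, h2, h3⟩ := GV ι (LV D) V h.vert v S hS hv k hk
  obtain ⟨j, hjS, hjv, hjF⟩ : ∃ j ∈ S, j ≠ v ∧ Face V {v, j} := by
    by_contra hno
    push Not at hno
    have h0 : ∀ l, a l = 0 := by
      intro l
      by_contra hl
      exact hno l (h2 l hl).1 (h2 l hl).2.1 (h2 l hl).2.2
    have h4 : V k = y • V v := by
      rw [h3]
      simp [h0]
    have h5 := ((G2 ι (LV D) V {v} {v} (h.vert v) (h.vert v)).2.2 k).2 (by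
      rw [h4, Set.image_singleton]
      exact Submodule.smul_mem _ _ (Submodule.mem_span_singleton_self _))
    exact hkv (by simpa using h5)
  have hkj : k ≠ j := by
    rintro rfl
    exact hnb hjF
  have hS' : Face V' S := (hF S).1 hS
  set z := T (V k) - V' k with hz
  have hzU : z ∈ Submodule.span ℝ (V' '' S) := by
    rw [hz]
    apply Submodule.sub_mem
    · rw [h3, map_add, map_smul, map_sum]
      apply Submodule.add_mem
      · apply Submodule.smul_mem
        rw [hT v (Or.inl rfl)]
        exact Submodule.subset_span ⟨v, hv, rfl⟩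
      · apply Submodule.sum_mem
        intro l _
        rw [map_smul]
        by_cases hl : a l = 0
        · rw [hl, zero_smul]; exact Submodule.zero_mem _
        · apply Submodule.smul_mem
          rw [hT l (Or.inr (h2 l hl).2)]
          exact Submodule.subset_span ⟨l, (h2 l hl).1, rfl⟩
    · exact Submodule.subset_span ⟨k, hk, rfl⟩
  have hzl : ∀ l, l ∈ S → (l = v ∨ (l ≠ v ∧ Face V {v, l})) → B z (V' l) = 0 := by
    intro l hlS hl
    rw [hz, B_sub_left]
    have e1 : B (T (V k)) (V' l) = B (V k) (V l) := by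
      rw [← hT l hl, hTB]
    rw [e1, FG ι V V' h h' hF S hS hSu k hk l hlS, sub_self]
  have hzi : ∀ i ∈ S, B z (V' i) = 0 := by
    intro i hi
    obtain ⟨y', a', h1', h2', h3'⟩ := GV ι (LV D) V' h'.vert v S hS' hv i hi
    rw [← Bl_apply, h3', map_add, map_smul, map_sum, Bl_apply, hzl v hv (Or.inl rfl), smul_zero,
      zero_add]
    apply Finset.sum_eq_zero
    intro l _
    rw [map_smul]
    by_cases hl : a' l = 0
    · rw [hl, zero_smul]
    · rw [Bl_apply, hzl l (h2' l hl).1 (Or.inr ⟨(h2' l hl).2.1, (hF _).2 (h2' l hl).2.2⟩),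
        smul_zero]
  have hzB : ∀ u ∈ Submodule.span ℝ (V' '' S), B z u = 0 := by
    intro u hu
    have : Submodule.span ℝ (V' '' S) ≤ LinearMap.ker (Bl D z) := by
      rw [Submodule.span_le]
      rintro _ ⟨i, hi, rfl⟩
      rw [SetLike.mem_coe, LinearMap.mem_ker, Bl_apply]
      exact hzi i hi
    have h5 := this hu
    rwa [LinearMap.mem_ker, Bl_apply] at h5
  have hz0 : z = 0 := by
    by_contra hz0
    have hjF' : Face V' {v, j} := (hF _).1 hjF
    have hee : B (V' v + V' j) (V' v + V' j) = 0 := by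
      rw [B_add_left, B_add_right, B_add_right, B_symm (V' j) (V' v), h'.norm, h'.norm,
        h'.edge v j hjv.symm hjF']
      norm_num
    have heU : V' v + V' j ∈ Submodule.span ℝ (V' '' S) :=
      Submodule.add_mem _ (Submodule.subset_span ⟨v, hv, rfl⟩)
        (Submodule.subset_span ⟨j, hjS, rfl⟩)
    have hzz : B z z = 0 := hzB z hzU
    have hze : B z (V' v + V' j) = 0 := hzB _ heU
    have hpr := null_prop z (V' v + V' j) hzz hee hze
    have hzn : z none ≠ 0 := fun h0 => hz0 (null_none z hzz h0)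
    have hlt := P7 D ι V' h' v j k hjv.symm hjF' hkv hkj
    have h6 : z none * B (V' k) (V' v + V' j) = 0 := by
      rw [← B_smul_right, hpr, B_smul_right, B_symm, hzi k hk, mul_zero]
    rcases mul_eq_zero.1 h6 with h7 | h7
    · exact hzn h7
    · rw [h7] at hlt
      exact lt_irrefl _ hlt
  rw [hz] at hz0
  exact sub_eq_zero.1 hz0

theorem agree (G5 : TaskG5) (hD : 4 ≤ D) (h : GQ D V) (v u : ι)
    (hf : Face V {v, u}) (T T' : LV D →ₗ[ℝ] LV D)
    (hT : ∀ S : Set ι, Face V S → S ≠ Set.univ → v ∈ S → ∀ k ∈ S, T (V k) = V' k)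
    (hT' : ∀ S : Set ι, Face V S → S ≠ Set.univ → u ∈ S → ∀ k ∈ S, T' (V k) = V' k) :
    T = T' := by
  have hne := ne_univ2 hD h v u
  have hvR : v ∈ ({v, u} : Set ι) := Set.mem_insert v {u}
  have huR : u ∈ ({v, u} : Set ι) := Set.mem_insert_of_mem v rfl
  have hall : ∀ i, T (V i) = T' (V i) := by
    intro i
    obtain ⟨y, a, h1, h2, h3, h4⟩ := G5 ι (LV D) V {v, u} Set.univ hf (face_univ V)
      (Set.ssubset_univ_iff.2 hne) i (Set.mem_univ i)
    rw [h4, map_add, map_add, map_sum, map_sum]
    congr 1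
    · have : Submodule.span ℝ (V '' {v, u}) ≤ LinearMap.eqLocus T T' := by
        rw [Submodule.span_le]
        rintro _ ⟨x, hx, rfl⟩
        rw [SetLike.mem_coe, LinearMap.mem_eqLocus, hT _ hf hne hvR x hx, hT' _ hf hne huR x hx]
      exact this h1
    · apply Finset.sum_congr rfl
      intro k _
      rw [map_smul, map_smul]
      by_cases hk : a k = 0
      · rw [hk, zero_smul, zero_smul]
      · congr 1
        obtain ⟨_, _, S, hcov, _, hkS⟩ := h3 k hk
        obtain ⟨_, hSF, hRS, hrk⟩ := hcov
        have hSu : S ≠ Set.univ := by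
          rintro rfl
          have e1 : rk V Set.univ = D + 1 := by
            unfold rk
            rw [Set.image_univ, h.span, finrank_top]
            simp
          have e2 : rk V ({v, u} : Set ι) ≤ 2 := by
            unfold rk
            rw [Set.image_pair]
            have := finrank_span_finset_le_card (R := ℝ) ({V v, V u} : Finset (LV D))
            rw [Set.finrank, Finset.coe_pair] at this
            exact this.trans Finset.card_le_two
          omega
        rw [hT S hSF hSu (hRS.1 hvR) k hkS, hT' S hSF hSu (hRS.1 huR) k hkS]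
  apply LinearMap.ext_on_range h.span hall

end

theorem t : TaskN16 := by
  intro G2 _ G5 GV P7 D hD FG VG ι _ V V' h h' hF
  have hTex : ∀ v : ι, ∃ T : LV D →ₗ[ℝ] LV D, (∀ x y, B (T x) (T y) = B x y) ∧
      ∀ k, (k = v ∨ (k ≠ v ∧ Face V {v, k})) → T (V k) = V' k := by
    intro v
    obtain ⟨T, hT1, hT2⟩ := exists_map
      (fun k : {k : ι // k = v ∨ (k ≠ v ∧ Face V {v, k})} => V k)
      (fun k : {k : ι // k = v ∨ (k ≠ v ∧ Face V {v, k})} => V' k) (span_nb GV h v)
      (by
        have h1 := span_nb GV h' v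
        have e : Set.range (fun k : {k : ι // k = v ∨ (k ≠ v ∧ Face V {v, k})} => V' k) =
            Set.range (fun k : {k : ι // k = v ∨ (k ≠ v ∧ Face V' {v, k})} => V' k) := by
          ext x
          constructor
          · rintro ⟨⟨k, hk⟩, rfl⟩
            exact ⟨⟨k, hk.imp id (fun hk => ⟨hk.1, (hF _).1 hk.2⟩)⟩, rfl⟩
          · rintro ⟨⟨k, hk⟩, rfl⟩
            exact ⟨⟨k, hk.imp id (fun hk => ⟨hk.1, (hF _).2 hk.2⟩)⟩, rfl⟩
        rw [e]
        exact h1)
      (by
        rintro ⟨i, hi⟩ ⟨j, hj⟩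
        simp only
        have hedge : ∀ k, (k ≠ v ∧ Face V {v, k}) → B (V v) (V k) = B (V' v) (V' k) := by
          intro k hk
          rw [h.edge v k hk.1.symm hk.2, h'.edge v k hk.1.symm ((hF _).mp hk.2)]
        rcases hi with rfl | hi <;> rcases hj with rfl | hj
        · rw [h.norm, h'.norm]
        · exact hedge j hj
        · rw [B_symm (V i), B_symm (V' i)]; exact hedge i hi
        · exact VG ι V V' h h' hF v i j hi.1 hj.1 hi.2 hj.2)
    exact ⟨T, hT1, fun k hk => hT2 ⟨k, hk⟩⟩
  choose T hT1 hT2 using hTex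
  have hface : ∀ v, ∀ S : Set ι, Face V S → S ≠ Set.univ → v ∈ S → ∀ k ∈ S, T v (V k) = V' k :=
    fun v S hS hSu hv => onface G2 GV P7 FG h h' hF v (T v) (hT1 v) (hT2 v) S hS hSu hv
  have hne : Nonempty ι := by
    have := card_ge h
    exact Fintype.card_pos_iff.mp (by omega)
  obtain ⟨v0⟩ := hne
  obtain ⟨l0, hl0, hl0'⟩ := h.vert v0
  obtain ⟨w, _, hw⟩ := h.tw
  have hpos : ∀ k, 0 < -B (V k) w := fun k => by linarith [hw k]
  have hall : ∀ k, T k = T v0 := by
    by_contra hcon
    push Not at hcon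
    obtain ⟨k0, hk0⟩ := hcon
    classical
    obtain ⟨k, hk, hmin⟩ := Finset.exists_min_image (Finset.univ.filter (fun k => T k ≠ T v0))
      (fun k => l0 (V k) / -B (V k) w) ⟨k0, by simpa using hk0⟩
    simp only [Finset.mem_filter, Finset.mem_univ, true_and] at hk hmin
    have hkv : k ≠ v0 := by rintro rfl; exact hk rfl
    have hl0k : 0 < l0 (V k) := by
      refine lt_of_le_of_ne (hl0 k) (fun he => hkv ?_)
      have := (hl0' k).mpr he.symm
      simpa using this
    set r := l0 (V k) / -B (V k) w with hr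
    have hrpos : 0 < r := div_pos hl0k (hpos k)
    set g : LV D →ₗ[ℝ] ℝ := l0 + r • (Bl D).flip w with hg
    have hgx : ∀ x : LV D, g x = l0 x - r * -B x w := by
      intro x
      simp [hg, Bl_apply]
    have hgk : g (V k) = 0 := by
      rw [hgx, hr, div_mul_cancel₀ _ (hpos k).ne', sub_self]
    have hgv0 : g (V v0) < 0 := by
      have e1 : l0 (V v0) = 0 := (hl0' v0).mp (by simp)
      rw [hgx, e1]
      have := mul_pos hrpos (hpos v0)
      linarith
    obtain ⟨y, a, h2, h3, h4⟩ := GV ι (LV D) V h.vert k Set.univ (face_univ V) (Set.mem_univ k)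
      v0 (Set.mem_univ v0)
    rw [h4, map_add, map_smul, hgk, smul_zero, zero_add, map_sum] at hgv0
    have hex : ∃ l, g (a l • V l) < 0 := by
      by_contra hno
      push Not at hno
      exact absurd hgv0 (not_lt.mpr (Finset.sum_nonneg (fun l _ => hno l)))
    obtain ⟨l, hl⟩ := hex
    rw [map_smul, smul_eq_mul] at hl
    have hal : a l ≠ 0 := by
      intro h0; rw [h0, zero_mul] at hl; exact lt_irrefl _ hl
    have hgl : g (V l) < 0 := by
      by_contra hge
      push Not at hge
      exact absurd hl (not_lt.mpr (mul_nonneg (h2 l) hge))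
    obtain ⟨_, hlk, hFl⟩ := h3 l hal
    have hlt : l0 (V l) / -B (V l) w < r := by
      rw [div_lt_iff₀ (hpos l)]
      rw [hgx] at hgl
      linarith
    have hTl : T l = T v0 := by
      by_contra hne'
      exact absurd (hmin l hne') (not_le.mpr hlt)
    exact hk ((agree G5 hD h k l hFl (T k) (T l) (hface k) (hface l)).trans hTl)
  refine ⟨T v0, hT1 v0, fun i => ?_⟩
  rw [← hall i]
  exact hT2 i i (Or.inl rfl)

end Pool.Agent.H722R5.ES.N16
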